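import Pool.Agent.Helper38.TH.GoalsA
import Pool.Agent.Helper17.M3.FinC0

/-!
# Project TH (MP_fc6b1e_nt, T100), packet T_PRTC: the primes not in `V`
-/

set_option autoImplicit false

namespace Pool.Agent.Helper64.TH

open Finset Pool.Agent.Helper17.PP Pool.Agent.Helper17.PP0 Pool.Agent.Helper17.PP2
  Pool.Agent.Helper11.M3 Pool.Agent.Helper38.TH Pool.Agent.Helper17.M3

section

variable {p : ℕ} {B B₀ k U Λ C : Type} [Field k] [Fintype k]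
    [Algebra (ZMod p) k] [AddCommGroup U] [Module k U] [Fintype U] [AddCommGroup Λ] [Module k Λ]
    [Fintype Λ] [AddCommGroup C] (S : Sys p B B₀ k U Λ C)

open Classical in
/-- The part with at most one label. -/
noncomputable def ZV (ψ : AddChar k ℂ) (V : B → Prop) (Lk : k → k → Prop) (W : Finset B → ℝ)
    (T E : ℕ) (P : Finset B) (j : ℕ) (t s : k) : ℝ :=
  ∑ b ∈ P.powerset, ∑ q ∈ b with (S.Wt E b q ∧ S.bl q = j),
    ‖ful₃ S ψ E P b q t s (ZoV S V Lk T E b q t s)‖ * W b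

open Classical in
/-- The oscillating sums of the first kind. -/
noncomputable def AV (ψ : AddChar k ℂ) (V : B → Prop) (Lk : k → k → Prop) (W : Finset B → ℝ)
    (T E : ℕ) (P : Finset B) (i j : ℕ) (t s : k) : ℂ :=
  ∑ b ∈ P.powerset with (S.Fam b ∧ Ok S (fun _ ↦ True) T b),
    (∑ q ∈ b with (S.Wt E b q ∧ S.bl q = j ∧ ¬ V q), ∑ q₁ ∈ b with S.bl q₁ = i,
      ful₃ S ψ E P b q t s (fun c y ↦ TlV S V Lk T E b q t s c y q₁)) * (W b : ℂ)

open Classical in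
/-- The oscillating sums of the second kind. -/
noncomputable def BV (ψ : AddChar k ℂ) (V : B → Prop) (Lk : k → k → Prop) (W : Finset B → ℝ)
    (T E : ℕ) (P : Finset B) (m i₁ i₂ : ℕ) (t s : k) : ℂ :=
  ∑ b ∈ P.powerset with (S.Fam b ∧ Ok S (fun _ ↦ True) T b),
    (∑ q ∈ b with (Wv S b q ∧ m ≤ S.bl q ∧ ¬ V q), ∑ q₁ ∈ b with S.bl q₁ = i₁,
      ∑ q₂ ∈ b with S.bl q₂ = i₂,
        ful₃ S ψ E P b q t s (fun c y ↦ TtV S V Lk T E b q t s c y q₁ q₂)) * (W b : ℂ)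

omit [Fintype k] [Algebra (ZMod p) k] [Fintype U] [Fintype Λ] in
open Classical in
/-- The sum over the primes in the blocks `≥ s₀`, not in `V`, is a sum over the blocks. -/
theorem sum_blocksV {N : Type} [AddCommMonoid N] (V : B → Prop) (b : Finset B) (Φ : B → Prop)
    (s₀ J : ℕ) (F : B → N) (h : ∀ q ∈ b, S.bl q < J) :
    ∑ q ∈ b with (Φ q ∧ s₀ ≤ S.bl q ∧ ¬ V q), F q =
      ∑ j ∈ Ico s₀ J, ∑ q ∈ b with (Φ q ∧ S.bl q = j ∧ ¬ V q), F q := by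
  have h1 := S.sum_blocks b (fun q ↦ Φ q ∧ ¬ V q) s₀ J F h
  refine Eq.trans (Finset.sum_congr ?_ fun _ _ ↦ rfl) (h1.trans
    (Finset.sum_congr rfl fun j _ ↦ Finset.sum_congr ?_ fun _ _ ↦ rfl))
  · ext q
    simp only [mem_filter]
    tauto
  · ext q
    simp only [mem_filter]
    tauto

open Classical in
theorem first_leV (ψ : AddChar k ℂ) (V : B → Prop) (Lk : k → k → Prop) (W : Finset B → ℝ)
    (hW : ∀ b, 0 ≤ W b) (T E s₀ J : ℕ) (P : Finset B) (hP : ∀ q ∈ P, S.bl q < J) (t s : k) :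
    (∑ b ∈ P.powerset with (S.Fam b ∧ Ok S (fun _ ↦ True) T b),
      (∑ q ∈ b with (S.Wt E b q ∧ s₀ ≤ S.bl q ∧ ¬ V q),
        ful₃ S ψ E P b q t s (ZoV S V Lk T E b q t s)) * (W b : ℂ)).re ≤
      ∑ j ∈ Ico s₀ J, ZV S ψ V Lk W T E P j t s := by
  refine (Complex.re_le_norm _).trans ((norm_sum_le _ _).trans ?_)
  have h1 : ∑ j ∈ Ico s₀ J, ZV S ψ V Lk W T E P j t s =
      ∑ b ∈ P.powerset, ∑ q ∈ b with (S.Wt E b q ∧ s₀ ≤ S.bl q),
        ‖ful₃ S ψ E P b q t s (ZoV S V Lk T E b q t s)‖ * W b := by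
    unfold ZV
    rw [Finset.sum_comm]
    refine Finset.sum_congr rfl fun b hb ↦ ?_
    rw [mem_powerset] at hb
    exact (S.sum_blocks b (fun q ↦ S.Wt E b q) s₀ J
      (fun q ↦ ‖ful₃ S ψ E P b q t s (ZoV S V Lk T E b q t s)‖ * W b)
      fun q hq ↦ hP q (hb hq)).symm
  rw [h1]
  refine (Finset.sum_le_sum fun b _ ↦ ?_).trans
    (Finset.sum_le_sum_of_subset_of_nonneg (Finset.filter_subset _ _)
      fun b _ _ ↦ Finset.sum_nonneg fun q _ ↦ mul_nonneg (norm_nonneg _) (hW b))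
  rw [norm_mul, Complex.norm_real, Real.norm_of_nonneg (hW b), ← Finset.sum_mul]
  refine mul_le_mul_of_nonneg_right ((norm_sum_le _ _).trans ?_) (hW b)
  refine Finset.sum_le_sum_of_subset_of_nonneg ?_ fun q _ _ ↦ norm_nonneg _
  intro q hq
  rw [mem_filter] at hq ⊢
  exact ⟨hq.1, hq.2.1, hq.2.2.1⟩

open Classical in
theorem second_eqV (hTT : T_TTV) (ψ : AddChar k ℂ) (V : B → Prop) (Lk : k → k → Prop)
    (W : Finset B → ℝ)
    (T E s₀ J : ℕ) (P : Finset B) (hP : ∀ q ∈ P, S.bl q < J) (t s : k) :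
    ∑ b ∈ P.powerset with (S.Fam b ∧ Ok S (fun _ ↦ True) T b),
      (∑ q ∈ b with (S.Wt E b q ∧ s₀ ≤ S.bl q ∧ ¬ V q), ∑ q₁ ∈ b,
        ful₃ S ψ E P b q t s (fun c y ↦ TlV S V Lk T E b q t s c y q₁)) * (W b : ℂ) =
      ∑ j ∈ Ico s₀ J, ∑ i ∈ Ico T J with i ≠ j, AV S ψ V Lk W T E P i j t s := by
  unfold AV
  have hc : ∀ j ∈ Ico s₀ J, ∑ i ∈ Ico T J with i ≠ j,
      ∑ b ∈ P.powerset with (S.Fam b ∧ Ok S (fun _ ↦ True) T b),
        (∑ q ∈ b with (S.Wt E b q ∧ S.bl q = j ∧ ¬ V q), ∑ q₁ ∈ b with S.bl q₁ = i,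
          ful₃ S ψ E P b q t s (fun c y ↦ TlV S V Lk T E b q t s c y q₁)) * (W b : ℂ) =
      ∑ b ∈ P.powerset with (S.Fam b ∧ Ok S (fun _ ↦ True) T b),
        (∑ q ∈ b with (S.Wt E b q ∧ S.bl q = j ∧ ¬ V q), ∑ q₁ ∈ b,
          ful₃ S ψ E P b q t s (fun c y ↦ TlV S V Lk T E b q t s c y q₁)) * (W b : ℂ) := by
    intro j _
    rw [Finset.sum_comm]
    refine Finset.sum_congr rfl fun b hb ↦ ?_
    rw [mem_filter, mem_powerset] at hb
    rw [← Finset.sum_mul]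
    congr 1
    rw [Finset.sum_comm]
    refine Finset.sum_congr rfl fun q hq ↦ ?_
    rw [mem_filter] at hq
    rw [sum_blk S b T J (fun q₁ ↦ ful₃ S ψ E P b q t s
      (fun c y ↦ TlV S V Lk T E b q t s c y q₁))]
    · refine Finset.sum_filter_of_ne fun i _ hne he ↦ hne ?_
      refine Finset.sum_eq_zero fun q₁ hq₁ ↦ ?_
      rw [mem_filter] at hq₁
      exact (hTT p B B₀ k U Λ C S ψ V Lk T E P b q t s).2.1 q₁
        (Or.inr (by rw [hq₁.2, hq.2.2.1, he]))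
    · intro q₁ hq₁ hne
      refine (hTT p B B₀ k U Λ C S ψ V Lk T E P b q t s).2.1 q₁ (Or.inl ?_)
      have := hP q₁ (hb.1 hq₁)
      omega
  rw [Finset.sum_congr rfl hc, Finset.sum_comm]
  refine Finset.sum_congr rfl fun b hb ↦ ?_
  rw [mem_filter, mem_powerset] at hb
  rw [← Finset.sum_mul]
  congr 1
  exact sum_blocksV S V b (fun q ↦ S.Wt E b q) s₀ J _ fun q hq ↦ hP q (hb.1 hq)

open Classical in
theorem third_leV (hTT : T_TTV) (ψ : AddChar k ℂ) (V : B → Prop) (Lk : k → k → Prop)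
    (W : Finset B → ℝ) (hW : ∀ b, 0 ≤ W b)
    (T E s₀ J : ℕ) (P : Finset B) (hP : ∀ q ∈ P, S.bl q < J) (t s : k) :
    (∑ b ∈ P.powerset with (S.Fam b ∧ Ok S (fun _ ↦ True) T b),
      (∑ q ∈ b with (S.Wt E b q ∧ s₀ ≤ S.bl q ∧ ¬ V q), ∑ q₁ ∈ b, ∑ q₂ ∈ b,
        ful₃ S ψ E P b q t s (fun c y ↦ TtV S V Lk T E b q t s c y q₁ q₂)) * (W b : ℂ)).re ≤
      ∑ i₁ ∈ Ico T J, ∑ i₂ ∈ Ico T i₁, ‖BV S ψ V Lk W T E P s₀ i₁ i₂ t s‖ +
        Fintype.card U * D3W S W E P s₀ := by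
  have hfull : ∑ b ∈ P.powerset with (S.Fam b ∧ Ok S (fun _ ↦ True) T b),
      (∑ q ∈ b with (Wv S b q ∧ s₀ ≤ S.bl q ∧ ¬ V q), ∑ q₁ ∈ b, ∑ q₂ ∈ b,
        ful₃ S ψ E P b q t s (fun c y ↦ TtV S V Lk T E b q t s c y q₁ q₂)) * (W b : ℂ) =
      ∑ i₁ ∈ Ico T J, ∑ i₂ ∈ Ico T i₁, BV S ψ V Lk W T E P s₀ i₁ i₂ t s := by
    unfold BV
    have hc : ∀ i₁ ∈ Ico T J, ∑ i₂ ∈ Ico T i₁,
        ∑ b ∈ P.powerset with (S.Fam b ∧ Ok S (fun _ ↦ True) T b),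
          (∑ q ∈ b with (Wv S b q ∧ s₀ ≤ S.bl q ∧ ¬ V q), ∑ q₁ ∈ b with S.bl q₁ = i₁,
            ∑ q₂ ∈ b with S.bl q₂ = i₂,
              ful₃ S ψ E P b q t s (fun c y ↦ TtV S V Lk T E b q t s c y q₁ q₂)) * (W b : ℂ) =
        ∑ b ∈ P.powerset with (S.Fam b ∧ Ok S (fun _ ↦ True) T b),
          (∑ q ∈ b with (Wv S b q ∧ s₀ ≤ S.bl q ∧ ¬ V q), ∑ i₂ ∈ Ico T i₁,
            ∑ q₁ ∈ b with S.bl q₁ = i₁, ∑ q₂ ∈ b with S.bl q₂ = i₂,
              ful₃ S ψ E P b q t s (fun c y ↦ TtV S V Lk T E b q t s c y q₁ q₂)) *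
                (W b : ℂ) := by
      intro i₁ _
      rw [Finset.sum_comm]
      refine Finset.sum_congr rfl fun b _ ↦ ?_
      rw [← Finset.sum_mul, Finset.sum_comm]
    rw [Finset.sum_congr rfl hc, Finset.sum_comm]
    refine Finset.sum_congr rfl fun b hb ↦ ?_
    rw [mem_filter, mem_powerset] at hb
    rw [← Finset.sum_mul]
    congr 1
    rw [eq_comm, Finset.sum_comm]
    refine Finset.sum_congr rfl fun q _ ↦ ?_
    exact (sum_blk₂ S b T J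
      (fun q₁ q₂ ↦ ful₃ S ψ E P b q t s (fun c y ↦ TtV S V Lk T E b q t s c y q₁ q₂))
      (fun q₁ _ q₂ _ h ↦ (hTT p B B₀ k U Λ C S ψ V Lk T E P b q t s).2.2 q₁ q₂ h)
      fun q' hq' ↦ hP q' (hb.1 hq')).symm
  have hsplit : ∑ b ∈ P.powerset with (S.Fam b ∧ Ok S (fun _ ↦ True) T b),
      (∑ q ∈ b with (S.Wt E b q ∧ s₀ ≤ S.bl q ∧ ¬ V q), ∑ q₁ ∈ b, ∑ q₂ ∈ b,
        ful₃ S ψ E P b q t s (fun c y ↦ TtV S V Lk T E b q t s c y q₁ q₂)) * (W b : ℂ) =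
      ∑ b ∈ P.powerset with (S.Fam b ∧ Ok S (fun _ ↦ True) T b),
      (∑ q ∈ b with (Wv S b q ∧ s₀ ≤ S.bl q ∧ ¬ V q), ∑ q₁ ∈ b, ∑ q₂ ∈ b,
        ful₃ S ψ E P b q t s (fun c y ↦ TtV S V Lk T E b q t s c y q₁ q₂)) * (W b : ℂ) -
      ∑ b ∈ P.powerset with (S.Fam b ∧ Ok S (fun _ ↦ True) T b),
      (∑ q ∈ b with ((Wv S b q ∧ s₀ ≤ S.bl q ∧ ¬ V q) ∧ ¬ S.Wt E b q), ∑ q₁ ∈ b, ∑ q₂ ∈ b,
        ful₃ S ψ E P b q t s (fun c y ↦ TtV S V Lk T E b q t s c y q₁ q₂)) * (W b : ℂ) := by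
    rw [← Finset.sum_sub_distrib]
    refine Finset.sum_congr rfl fun b _ ↦ ?_
    rw [← sub_mul]
    congr 1
    rw [eq_sub_iff_add_eq, ← Finset.sum_filter_add_sum_filter_not
      (b.filter fun q ↦ Wv S b q ∧ s₀ ≤ S.bl q ∧ ¬ V q) (fun q ↦ S.Wt E b q),
      Finset.filter_filter, Finset.filter_filter]
    congr 1
    refine Finset.sum_congr (Finset.filter_congr fun q _ ↦ ?_) fun _ _ ↦ rfl
    constructor
    · rintro ⟨h1, h2⟩
      exact ⟨⟨wv_of_wt S h1, h2⟩, h1⟩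
    · rintro ⟨⟨_, h2⟩, h3⟩
      exact ⟨h3, h2⟩
  rw [hsplit, hfull, Complex.sub_re, sub_eq_add_neg]
  refine add_le_add ?_ ?_
  · refine (Complex.re_le_norm _).trans ((norm_sum_le _ _).trans ?_)
    exact Finset.sum_le_sum fun i₁ _ ↦ norm_sum_le _ _
  · refine (neg_le_abs _).trans ((Complex.abs_re_le_norm _).trans ((norm_sum_le _ _).trans ?_))
    unfold D3W
    rw [Finset.mul_sum]
    refine (Finset.sum_le_sum fun b _ ↦ ?_).trans
      (Finset.sum_le_sum_of_subset_of_nonneg (Finset.filter_subset _ _)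
        fun b _ _ ↦ mul_nonneg (by positivity) (Finset.sum_nonneg fun q _ ↦
          mul_nonneg (by positivity) (hW b)))
    rw [norm_mul, Complex.norm_real, Real.norm_of_nonneg (hW b), ← Finset.sum_mul, ← mul_assoc]
    refine mul_le_mul_of_nonneg_right ?_ (hW b)
    rw [Finset.mul_sum]
    refine (norm_sum_le _ _).trans ?_
    refine (Finset.sum_le_sum fun q _ ↦
      (hTT p B B₀ k U Λ C S ψ V Lk T E P b q t s).1).trans ?_
    refine Finset.sum_le_sum_of_subset_of_nonneg ?_ fun q _ _ ↦ by positivity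
    intro q hq
    rw [mem_filter] at hq ⊢
    exact ⟨hq.1, hq.2.1.2.1, nm_of_not_wt S hq.2.1.1 hq.2.2⟩

end

section

variable {p : ℕ} [Fact p.Prime] {B B₀ k U Λ C : Type} [Field k] [Fintype k]
    [Algebra (ZMod p) k] [AddCommGroup U] [Module k U] [Fintype U] [AddCommGroup Λ] [Module k Λ]
    [Fintype Λ] [AddCommGroup C] (S : Sys p B B₀ k U Λ C)

open Classical in
/-- From `cnt₂` to `cnt` and the error terms. -/
theorem step7V (hFUL : S_FUL) (hSPL : T_SPLV) (hTT : T_TTV) (ψ : AddChar k ℂ) (hψ : ψ ≠ 1)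
    (V : B → Prop) (Lk : k → k → Prop) (Cs : k → AddSubgroup k) (M : ℕ) (hM0 : 0 < M)
    (hM : ∀ t : k, t ≠ 0 → Nat.card (Cs t) = M) (W : Finset B → ℝ) (hW : ∀ b, 0 ≤ W b)
    (T E s₀ J : ℕ) (P : Finset B) (hP : ∀ q ∈ P, S.bl q < J) :
    ∑ b ∈ P.powerset with (S.Fam b ∧ Ok S (fun _ ↦ True) T b),
      (∑ q ∈ b with (S.Wt E b q ∧ s₀ ≤ S.bl q ∧ ¬ V q), (S.cnt₂ E b q : ℝ)) * W b ≤
      (1 / M : ℝ) * ∑ b ∈ P.powerset with S.Fam b,
        (∑ q ∈ b with (S.Wt E b q ∧ s₀ ≤ S.bl q ∧ ¬ V q), (S.cnt E b q : ℝ)) * W b +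
      (1 / M : ℝ) * ∑ t : k with t ≠ 0, ∑ s : k with (s ∈ Cs t ∧ s ≠ 0),
        (∑ j ∈ Ico s₀ J, ZV S ψ V Lk W T E P j t s +
          ∑ j ∈ Ico s₀ J, ∑ i ∈ Ico T J with i ≠ j, ‖AV S ψ V Lk W T E P i j t s‖ +
          (∑ i₁ ∈ Ico T J, ∑ i₂ ∈ Ico T i₁, ‖BV S ψ V Lk W T E P s₀ i₁ i₂ t s‖ +
            Fintype.card U * D3W S W E P s₀)) := by
  have hMr : (0 : ℝ) ≤ 1 / M := by positivity
  have hstep : ∑ b ∈ P.powerset with (S.Fam b ∧ Ok S (fun _ ↦ True) T b),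
        (∑ q ∈ b with (S.Wt E b q ∧ s₀ ≤ S.bl q ∧ ¬ V q), (S.cnt₂ E b q : ℝ)) * W b ≤
      (1 / M : ℝ) * ∑ b ∈ P.powerset with (S.Fam b ∧ Ok S (fun _ ↦ True) T b),
        (∑ q ∈ b with (S.Wt E b q ∧ s₀ ≤ S.bl q ∧ ¬ V q), (S.cnt E b q : ℝ)) * W b +
      (1 / M : ℝ) * ∑ t : k with t ≠ 0, ∑ s : k with (s ∈ Cs t ∧ s ≠ 0),
        ∑ b ∈ P.powerset with (S.Fam b ∧ Ok S (fun _ ↦ True) T b),
          ∑ q ∈ b with (S.Wt E b q ∧ s₀ ≤ S.bl q ∧ ¬ V q),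
            (ful₃ S ψ E P b q t s fun _ _ ↦ True).re * W b := by
    have hr : ∑ t : k with t ≠ 0, ∑ s : k with (s ∈ Cs t ∧ s ≠ 0),
        ∑ b ∈ P.powerset with (S.Fam b ∧ Ok S (fun _ ↦ True) T b),
          ∑ q ∈ b with (S.Wt E b q ∧ s₀ ≤ S.bl q ∧ ¬ V q),
            (ful₃ S ψ E P b q t s fun _ _ ↦ True).re * W b =
        ∑ b ∈ P.powerset with (S.Fam b ∧ Ok S (fun _ ↦ True) T b),
          ∑ q ∈ b with (S.Wt E b q ∧ s₀ ≤ S.bl q ∧ ¬ V q),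
            (∑ t : k with t ≠ 0, ∑ s : k with (s ∈ Cs t ∧ s ≠ 0),
              (ful₃ S ψ E P b q t s fun _ _ ↦ True).re) * W b := by
      have h1 : ∀ t : k, ∑ s : k with (s ∈ Cs t ∧ s ≠ 0),
          ∑ b ∈ P.powerset with (S.Fam b ∧ Ok S (fun _ ↦ True) T b),
          ∑ q ∈ b with (S.Wt E b q ∧ s₀ ≤ S.bl q ∧ ¬ V q),
            (ful₃ S ψ E P b q t s fun _ _ ↦ True).re * W b =
          ∑ b ∈ P.powerset with (S.Fam b ∧ Ok S (fun _ ↦ True) T b),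
          ∑ q ∈ b with (S.Wt E b q ∧ s₀ ≤ S.bl q ∧ ¬ V q), ∑ s : k with (s ∈ Cs t ∧ s ≠ 0),
            (ful₃ S ψ E P b q t s fun _ _ ↦ True).re * W b := by
        intro t
        rw [Finset.sum_comm]
        refine Finset.sum_congr rfl fun b _ ↦ ?_
        rw [Finset.sum_comm]
      rw [Finset.sum_congr rfl fun t _ ↦ h1 t, Finset.sum_comm]
      refine Finset.sum_congr rfl fun b _ ↦ ?_
      rw [Finset.sum_comm]
      refine Finset.sum_congr rfl fun q _ ↦ ?_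
      simp only [Finset.sum_mul]
    rw [hr, Finset.mul_sum, Finset.mul_sum, ← Finset.sum_add_distrib]
    refine Finset.sum_le_sum fun b hb ↦ ?_
    rw [mem_filter, mem_powerset] at hb
    rw [Finset.sum_mul, Finset.sum_mul, Finset.mul_sum, Finset.mul_sum,
      ← Finset.sum_add_distrib]
    refine Finset.sum_le_sum fun q hq ↦ ?_
    rw [mem_filter] at hq
    have h2 := hFUL p B B₀ k U Λ C S ψ hψ Cs M hM0 hM E P b q hb.1 hq.1
    calc (S.cnt₂ E b q : ℝ) * W b ≤ _ := mul_le_mul_of_nonneg_right h2 (hW b)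
      _ = _ := by ring
  refine hstep.trans (add_le_add (mul_le_mul_of_nonneg_left ?_ hMr)
    (mul_le_mul_of_nonneg_left ?_ hMr))
  · refine Finset.sum_le_sum_of_subset_of_nonneg ?_ fun b _ _ ↦
      mul_nonneg (Finset.sum_nonneg fun q _ ↦ by positivity) (hW b)
    intro b hb
    rw [mem_filter] at hb ⊢
    exact ⟨hb.1, hb.2.1⟩
  · refine Finset.sum_le_sum fun t _ ↦ Finset.sum_le_sum fun s _ ↦ ?_
    have h3 : ∑ b ∈ P.powerset with (S.Fam b ∧ Ok S (fun _ ↦ True) T b),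
          ∑ q ∈ b with (S.Wt E b q ∧ s₀ ≤ S.bl q ∧ ¬ V q),
            (ful₃ S ψ E P b q t s fun _ _ ↦ True).re * W b =
        (∑ b ∈ P.powerset with (S.Fam b ∧ Ok S (fun _ ↦ True) T b),
          (∑ q ∈ b with (S.Wt E b q ∧ s₀ ≤ S.bl q ∧ ¬ V q),
            ful₃ S ψ E P b q t s (ZoV S V Lk T E b q t s)) * (W b : ℂ)).re +
        (∑ b ∈ P.powerset with (S.Fam b ∧ Ok S (fun _ ↦ True) T b),
          (∑ q ∈ b with (S.Wt E b q ∧ s₀ ≤ S.bl q ∧ ¬ V q), ∑ q₁ ∈ b,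
            ful₃ S ψ E P b q t s (fun c y ↦ TlV S V Lk T E b q t s c y q₁)) *
              (W b : ℂ)).re +
        (∑ b ∈ P.powerset with (S.Fam b ∧ Ok S (fun _ ↦ True) T b),
          (∑ q ∈ b with (S.Wt E b q ∧ s₀ ≤ S.bl q ∧ ¬ V q), ∑ q₁ ∈ b, ∑ q₂ ∈ b,
            ful₃ S ψ E P b q t s (fun c y ↦ TtV S V Lk T E b q t s c y q₁ q₂)) *
              (W b : ℂ)).re := by
      rw [← Complex.add_re, ← Complex.add_re, ← Finset.sum_add_distrib,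
        ← Finset.sum_add_distrib, Complex.re_sum]
      refine Finset.sum_congr rfl fun b hb ↦ ?_
      rw [mem_filter, mem_powerset] at hb
      rw [← add_mul, ← add_mul, ← Finset.sum_add_distrib, ← Finset.sum_add_distrib,
        ← re_mul_real, Complex.re_sum, Finset.sum_mul]
      refine Finset.sum_congr rfl fun q _ ↦ ?_
      rw [hSPL p B B₀ k U Λ C S ψ V Lk T E P b q t s hb.2.2]
    rw [h3]
    refine add_le_add (add_le_add (first_leV S ψ V Lk W hW T E s₀ J P hP t s) ?_)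
      (third_leV S hTT ψ V Lk W hW T E s₀ J P hP t s)
    rw [second_eqV S hTT ψ V Lk W T E s₀ J P hP t s]
    refine (Complex.re_le_norm _).trans ((norm_sum_le _ _).trans ?_)
    exact Finset.sum_le_sum fun j _ ↦ norm_sum_le _ _

end

/-- **T_PRTC**. -/
theorem t_prtc : T_PRTC := by
  classical
  intro hBLK hMNB hFUL hSPL hTT hOSZ hOSA hOSB hTL hSM5 hSM6
    p _ B B₀ k U Λ Cc _ _ _ _ _ _ _ _ _ _ _ S ψ Lk Cs M κ g K hypG V ρ K₂ hSpr hρκ ε hε j₀ hj₀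
  have hyp₃ : Hyp₃ S ψ Lk Cs M g K := hypG.toHyp₃
  have hyp : Hyp₀ S ψ g K := hyp₃.toHyp₀
  have hypW : HypW S ψ g K := HypW.of_hyp₀ S hyp
  obtain ⟨K₃, hK₃⟩ := hOSA p B B₀ k U Λ Cc S ψ Lk Cs M κ g K hypG
  obtain ⟨K₇, hK₇⟩ := hOSB p B B₀ k U Λ Cc S ψ Lk Cs M κ g K hypG
  obtain ⟨K₆, hK₆⟩ := hOSZ p B B₀ k U Λ Cc S ψ Lk Cs M κ g K hypG V ρ K₂ hSpr hρκ
  have hK : 1 ≤ K := hyp.one_le
  have hκ := hypG.κ_pos
  set E := 2 * K * (K + 1) with hE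
  obtain ⟨A₃, hA₃⟩ := hSM6 K K₃ hK
  obtain ⟨A₇, hA₇⟩ := hSM6 K K₇ hK
  set A₂ := A₃ + A₇ with hA₂
  have hE1 : 1 ≤ E := by
    rw [hE]; nlinarith
  set Q : ℝ := (Fintype.card k : ℝ) with hQ
  have hQ2 : 2 ≤ Q := by
    rw [hQ]; exact_mod_cast Fintype.one_lt_card (α := k)
  have hM0 : 0 < M := hyp₃.M_pos
  have hM1 : (1 : ℝ) ≤ M := by exact_mod_cast hM0
  have hM00 : (0 : ℝ) ≤ 1 / M := by positivity
  have hM01 : (1 : ℝ) / M ≤ 1 := by
    rw [div_le_one (by linarith)]; exact hM1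
  set ρ₀ : ℝ := (Fintype.card U / Fintype.card Λ : ℝ) with hρ₀
  have hρ₀0 : 0 ≤ ρ₀ := by positivity
  -- the exponent
  obtain ⟨K₉, hK₉⟩ := exists_nat_ge (max 1 (4 / κ))
  have hK₉1 : 1 ≤ K₉ := by
    have : (1 : ℝ) ≤ K₉ := (le_max_left _ _).trans hK₉
    exact_mod_cast this
  have hK₉κ : 1 / (2 * K₉ : ℝ) ≤ κ / 8 := by
    have h1 : 4 / κ ≤ K₉ := (le_max_right _ _).trans hK₉
    rw [div_le_iff₀ hκ] at h1
    have h2 : (0 : ℝ) < K₉ := by exact_mod_cast hK₉1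
    rw [div_le_iff₀ (by positivity)]
    nlinarith
  set Ct : ℝ := K₆ + K₃ + (K₇ + Fintype.card U) with hCt
  have hCt0 : 0 ≤ Ct := by positivity
  set e : ℝ := ε / (1 + Q * (Q * Ct)) with he
  have he0 : 0 < e := by positivity
  have hεe : (1 + Q * (Q * Ct)) * e = ε := by
    rw [he]; field_simp
  -- the choice of `X₀`
  obtain ⟨L5, hL5⟩ := hSM5 K₉ K₆ A₂ j₀ e hK₉1 he0
  obtain ⟨L6, hL6⟩ := hA₃ e he0
  obtain ⟨L8, hL8⟩ := hA₇ e he0
  obtain ⟨L7, hL7⟩ := ti_le_sqrt A₂ j₀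
  obtain ⟨XT, -, hXT⟩ := hTL p B B₀ k U Λ Cc S ψ g K hypW E e hE1 he0
  obtain ⟨XB, hXB⟩ := hBLK p B B₀ k U Λ Cc S ψ Lk Cs M κ g K hypG e he0
  refine ⟨max (2 ^ (L5 + L6 + L8 + L7)) (max XT XB), fun X hX ↦ ?_⟩
  have hXp : (2 : ℝ) ^ (L5 + L6 + L8 + L7) ≤ X := (le_max_left _ _).trans hX
  have hXX := (le_max_right _ _).trans hX
  have hXXT : XT ≤ X := (le_max_left _ _).trans hXX
  have hXXB : XB ≤ X := (le_max_right _ _).trans hXX
  have hLX := le_lg hXp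
  set L := lg X with hL
  set s := Nat.sqrt L with hs
  set T := ti A₂ L + j₀ with hT
  have hX1 : 1 ≤ X := le_trans (one_le_pow₀ (by norm_num)) hXp
  have hTs : T ≤ s := hL7 L (by omega)
  have hj₀T : j₀ ≤ T := by omega
  have hgX : 1 ≤ g X := hyp.g_one X
  have hXg : 0 ≤ X * g X := by positivity
  refine ⟨T, hj₀T, hTs, fun G hG P hP ↦ ?_⟩
  set J := th E s + 1 with hJ
  have hPJ : ∀ q ∈ P, S.bl q < J := fun q hq ↦ Nat.lt_succ_of_le (hP q hq)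
  -- the weight
  set W : Finset B → ℝ := fun b ↦ G b * Real.exp (-(S.nm b / X)) with hWdef
  have hW0 : ∀ b, 0 ≤ W b := fun b ↦ mul_nonneg (hG.nonneg b) (Real.exp_pos _).le
  have hWD : ∀ b, W b ≤ Real.exp (-(S.nm b / X)) := fun b ↦ by
    have := mul_le_mul_of_nonneg_right (hG.le_one b) (Real.exp_pos (-(S.nm b / X))).le
    simpa using this
  -- the main term
  set F : ℝ := ∑ b ∈ P.powerset with S.Fam b, W b with hF
  have hmain : ∑ b ∈ P.powerset with S.Fam b,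
      (∑ q ∈ b with (S.Wt E b q ∧ s ≤ S.bl q ∧ ¬ V q), (S.cnt E b q : ℝ)) * W b ≤
      ρ₀ * (Q * F) + e * (X * g X) := by
    have hB := hXB X hXXB V G (fun q ↦ ¬ V q) hG (fun q h ↦ h) P hP
    refine le_trans (le_of_eq ?_) (hB.trans ?_)
    · refine Finset.sum_congr rfl fun b _ ↦ ?_
      congr!
    refine add_le_add (mul_le_mul_of_nonneg_left ?_ hρ₀0) le_rfl
    rw [hF, Finset.mul_sum]
    refine Finset.sum_le_sum fun b hb ↦ ?_
    rw [mem_filter, mem_powerset] at hb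
    refine mul_le_mul_of_nonneg_right ?_ (hW0 b)
    have h7 : ∑ q ∈ b with (S.Wt E b q ∧ s ≤ S.bl q ∧ ¬ V q),
        ((Fintype.card k : ℝ) - 1) * (1 / Fintype.card k : ℝ) ^ (S.rt E b q).card ≤
        ∑ q ∈ b with (S.Wt E b q ∧ s ≤ S.bl q),
        ((Fintype.card k : ℝ) - 1) * (1 / Fintype.card k : ℝ) ^ (S.rt E b q).card := by
      refine Finset.sum_le_sum_of_subset_of_nonneg ?_ fun q _ _ ↦ ?_
      · intro q hq
        rw [mem_filter] at hq ⊢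
        exact ⟨hq.1, hq.2.1, hq.2.2.1⟩
      · have : 0 ≤ (Fintype.card k : ℝ) - 1 := by linarith
        positivity
    refine le_trans (le_of_eq ?_)
      (h7.trans (hMNB p B B₀ k U Λ Cc S E s b fun q hq ↦ hP q (hb.1 hq)))
    congr!
  -- at most one label
  have hZ : ∀ t s' : k, ∑ j ∈ Ico s J, ZV S ψ V Lk W T E P j t s' ≤
      K₆ * e * (X * g X) := by
    intro t s'
    have h1 : ∀ j ∈ Ico s J, ZV S ψ V Lk W T E P j t s' ≤
        K₆ * ((((ti A₂ L + j₀ : ℕ) : ℝ) + 2) ^ K₆ / j * min 1 (2 ^ (L + 1) / 2 ^ j) *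
        ((max 1 (L - (j + 1)) : ℕ) : ℝ) ^ (-(1 / (2 * K₉) : ℝ))) * (X * g X) := by
      intro j hj
      rw [mem_Ico] at hj
      have hmono : th E s ≤ th E j := by
        unfold th
        exact Nat.pow_le_pow_right (by norm_num) (Nat.div_le_div_right hj.1)
      have h2 := hK₆ E T j t s' X P (by omega) (by omega)
        (fun q hq ↦ (hP q hq).trans hmono) hX1
      have hm := min_bound X j
      have h3 : ZV S ψ V Lk W T E P j t s' ≤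
          ZV S ψ V Lk (fun b ↦ Real.exp (-(S.nm b / X))) T E P j t s' := by
        unfold ZV
        refine Finset.sum_le_sum fun b _ ↦ Finset.sum_le_sum fun q _ ↦ ?_
        exact mul_le_mul_of_nonneg_left (hWD b) (norm_nonneg _)
      refine h3.trans ?_
      refine (show ZV S ψ V Lk (fun b ↦ Real.exp (-(S.nm b / X))) T E P j t s' ≤ _
        from h2).trans ?_
      refine mul_le_mul_of_nonneg_right ?_ hXg
      have hbase : (1 : ℝ) ≤ ((max 1 (L - (j + 1)) : ℕ) : ℝ) := by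
        exact_mod_cast le_max_left _ _
      have hexp : ((max 1 (L - (j + 1)) : ℕ) : ℝ) ^ (-(κ / 8)) ≤
          ((max 1 (L - (j + 1)) : ℕ) : ℝ) ^ (-(1 / (2 * K₉) : ℝ)) :=
        Real.rpow_le_rpow_of_exponent_le hbase (by linarith)
      have h0 : (0 : ℝ) ≤ ((max 1 (L - (j + 1)) : ℕ) : ℝ) ^ (-(κ / 8)) := by
        positivity
      have h01 : (0 : ℝ) ≤ K₆ * (((T : ℝ) + 2) ^ K₆ / j) := by positivity
      have h02 : (0 : ℝ) ≤ min 1 (2 ^ (lg X + 1) / 2 ^ j) := by positivity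
      calc (K₆ : ℝ) * ((T : ℝ) + 2) ^ K₆ / j * min 1 (X / 2 ^ j) *
            ((max 1 (lg X - (j + 1)) : ℕ) : ℝ) ^ (-(κ / 8))
          = K₆ * (((T : ℝ) + 2) ^ K₆ / j) * min 1 (X / 2 ^ j) *
            ((max 1 (L - (j + 1)) : ℕ) : ℝ) ^ (-(κ / 8)) := by
            rw [← hL]; ring
        _ ≤ K₆ * (((T : ℝ) + 2) ^ K₆ / j) * min 1 (2 ^ (lg X + 1) / 2 ^ j) *
            ((max 1 (L - (j + 1)) : ℕ) : ℝ) ^ (-(κ / 8)) :=
            mul_le_mul_of_nonneg_right (mul_le_mul_of_nonneg_left hm h01) h0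
        _ ≤ K₆ * (((T : ℝ) + 2) ^ K₆ / j) * min 1 (2 ^ (lg X + 1) / 2 ^ j) *
            ((max 1 (L - (j + 1)) : ℕ) : ℝ) ^ (-(1 / (2 * K₉) : ℝ)) :=
            mul_le_mul_of_nonneg_left hexp (mul_nonneg h01 h02)
        _ = _ := by rw [← hT, ← hL]; ring
    refine (Finset.sum_le_sum h1).trans ?_
    rw [← Finset.sum_mul, ← Finset.mul_sum]
    exact mul_le_mul_of_nonneg_right (mul_le_mul_of_nonneg_left
      (hL5 L (by omega) J) (Nat.cast_nonneg _)) hXg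
  -- the oscillating sums, first kind
  have hO : ∀ t s' : k, t ≠ 0 → s' ≠ 0 → ∑ j ∈ Ico s J, ∑ i ∈ Ico T J with i ≠ j,
      ‖AV S ψ V Lk W T E P i j t s'‖ ≤ K₃ * e * (X * g X) := by
    intro t s' ht hs'
    have h1 : ∀ j ∈ Ico s J, ∀ i ∈ (Ico T J).filter fun i ↦ i ≠ j,
        ‖AV S ψ V Lk W T E P i j t s'‖ ≤
        K₃ * (((L : ℝ) + 2) ^ K₃ * ((i : ℝ) + j) ^ K *
          (2 : ℝ) ^ (-(min i j : ℝ) / K) * min 1 (2 ^ (L + 1) / 2 ^ (i + j))) * (X * g X) := by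
      intro j hj i hi
      rw [mem_filter, mem_Ico] at hi
      rw [mem_Ico] at hj
      have h2 := hK₃ V G hG E T i j t s' X P (by omega) hi.1.1 (by omega) hi.2 ht hs' hX1
      have h3 : ‖AV S ψ V Lk W T E P i j t s'‖ ≤ _ := le_trans (le_of_eq (by
        unfold AV
        congr 1
        refine Finset.sum_congr rfl fun b _ ↦ ?_
        rw [Finset.sum_mul]
        refine Finset.sum_congr rfl fun q _ ↦ ?_
        rw [Finset.sum_mul]
        refine Finset.sum_congr rfl fun q₁ _ ↦ ?_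
        rw [hWdef]
        push_cast
        ring)) h2
      refine h3.trans ?_
      refine mul_le_mul_of_nonneg_right ?_ hXg
      have hm := min_bound X (i + j)
      calc (K₃ : ℝ) * (lg X + 2) ^ K₃ * (i + j) ^ K * (2 : ℝ) ^ (-(min i j : ℝ) / K) *
            min 1 (X / 2 ^ (i + j))
          = (K₃ * (((lg X : ℝ) + 2) ^ K₃ * ((i : ℝ) + j) ^ K *
            (2 : ℝ) ^ (-(min i j : ℝ) / K))) * min 1 (X / 2 ^ (i + j)) := by ring
        _ ≤ (K₃ * (((lg X : ℝ) + 2) ^ K₃ * ((i : ℝ) + j) ^ K *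
            (2 : ℝ) ^ (-(min i j : ℝ) / K))) * min 1 (2 ^ (lg X + 1) / 2 ^ (i + j)) :=
            mul_le_mul_of_nonneg_left hm (by positivity)
        _ = _ := by rw [← hL]; ring
    have h2 : ∑ j ∈ Ico s J, ∑ i ∈ Ico T J with i ≠ j, ‖AV S ψ V Lk W T E P i j t s'‖ ≤
        ∑ j ∈ Ico T J, ∑ i ∈ Ico T J,
          K₃ * (((L : ℝ) + 2) ^ K₃ * ((i : ℝ) + j) ^ K *
          (2 : ℝ) ^ (-(min i j : ℝ) / K) * min 1 (2 ^ (L + 1) / 2 ^ (i + j))) *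
            (X * g X) := by
      refine (Finset.sum_le_sum fun j hj ↦ (Finset.sum_le_sum (h1 j hj)).trans
        (Finset.sum_le_sum_of_subset_of_nonneg (Finset.filter_subset _ _)
          fun i _ _ ↦ by positivity)).trans ?_
      exact Finset.sum_le_sum_of_subset_of_nonneg (Finset.Ico_subset_Ico hTs le_rfl)
        fun j _ _ ↦ by positivity
    refine h2.trans ?_
    rw [Finset.sum_comm]
    simp only [← Finset.mul_sum, ← Finset.sum_mul]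
    have hti := (ti_add A₃ A₇ L).1
    rw [← hA₂] at hti
    have h3 := hL6 L (by omega) T (by omega) J
    exact mul_le_mul_of_nonneg_right
      (mul_le_mul_of_nonneg_left h3 (Nat.cast_nonneg _)) hXg
  -- the oscillating sums, second kind
  have hO₂ : ∀ t s' : k, t ≠ 0 → s' ∈ Cs t → s' ≠ 0 → ∑ i₁ ∈ Ico T J, ∑ i₂ ∈ Ico T i₁,
      ‖BV S ψ V Lk W T E P s i₁ i₂ t s'‖ ≤ K₇ * e * (X * g X) := by
    intro t s' ht hsC hs'
    have h1 : ∀ i₁ ∈ Ico T J, ∀ i₂ ∈ Ico T i₁, ‖BV S ψ V Lk W T E P s i₁ i₂ t s'‖ ≤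
        K₇ * (((L : ℝ) + 2) ^ K₇ * ((i₁ : ℝ) + i₂) ^ K *
          (2 : ℝ) ^ (-(min i₁ i₂ : ℝ) / K) * min 1 (2 ^ (L + 1) / 2 ^ (i₁ + i₂))) *
            (X * g X) := by
      intro i₁ hi₁ i₂ hi₂
      rw [mem_Ico] at hi₁ hi₂
      have h2 := hK₇ V G hG E T i₁ i₂ s t s' X P (by omega) hi₂.1 hi₂.2 hTs ht hsC hs' hX1
      have hmin : min (i₁ : ℝ) (i₂ : ℝ) = i₂ := min_eq_right (by exact_mod_cast hi₂.2.le)
      rw [hmin]
      have h3 : ‖BV S ψ V Lk W T E P s i₁ i₂ t s'‖ ≤ _ := le_trans (le_of_eq (by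
        unfold BV
        congr 1
        refine Finset.sum_congr rfl fun b _ ↦ ?_
        rw [Finset.sum_mul]
        refine Finset.sum_congr rfl fun q _ ↦ ?_
        rw [Finset.sum_mul]
        refine Finset.sum_congr rfl fun q₁ _ ↦ ?_
        rw [Finset.sum_mul]
        refine Finset.sum_congr rfl fun q₂ _ ↦ ?_
        rw [hWdef]
        push_cast
        ring)) h2
      refine h3.trans ?_
      refine mul_le_mul_of_nonneg_right ?_ hXg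
      have hm := min_bound X (i₁ + i₂)
      calc (K₇ : ℝ) * (lg X + 2) ^ K₇ * (i₁ + i₂) ^ K * (2 : ℝ) ^ (-(i₂ : ℝ) / K) *
            min 1 (X / 2 ^ (i₁ + i₂))
          = (K₇ * (((lg X : ℝ) + 2) ^ K₇ * ((i₁ : ℝ) + i₂) ^ K *
            (2 : ℝ) ^ (-(i₂ : ℝ) / K))) * min 1 (X / 2 ^ (i₁ + i₂)) := by ring
        _ ≤ (K₇ * (((lg X : ℝ) + 2) ^ K₇ * ((i₁ : ℝ) + i₂) ^ K *
            (2 : ℝ) ^ (-(i₂ : ℝ) / K))) * min 1 (2 ^ (lg X + 1) / 2 ^ (i₁ + i₂)) :=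
            mul_le_mul_of_nonneg_left hm (by positivity)
        _ = _ := by rw [← hL]; ring
    have h2 : ∑ i₁ ∈ Ico T J, ∑ i₂ ∈ Ico T i₁, ‖BV S ψ V Lk W T E P s i₁ i₂ t s'‖ ≤
        ∑ i₁ ∈ Ico T J, ∑ i₂ ∈ Ico T J,
          K₇ * (((L : ℝ) + 2) ^ K₇ * ((i₁ : ℝ) + i₂) ^ K *
          (2 : ℝ) ^ (-(min i₁ i₂ : ℝ) / K) * min 1 (2 ^ (L + 1) / 2 ^ (i₁ + i₂))) *
            (X * g X) := by
      refine Finset.sum_le_sum fun i₁ hi₁ ↦ (Finset.sum_le_sum (h1 i₁ hi₁)).trans ?_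
      refine Finset.sum_le_sum_of_subset_of_nonneg (Finset.Ico_subset_Ico le_rfl ?_)
        fun i _ _ ↦ by positivity
      exact (mem_Ico.1 hi₁).2.le
    refine h2.trans ?_
    simp only [← Finset.mul_sum, ← Finset.sum_mul]
    have hti := (ti_add A₃ A₇ L).2
    rw [← hA₂] at hti
    have h3 := hL8 L (by omega) T (by omega) J
    exact mul_le_mul_of_nonneg_right
      (mul_le_mul_of_nonneg_left h3 (Nat.cast_nonneg _)) hXg
  -- the very large norms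
  have hDD : D3W S W E P s ≤ e * (X * g X) := by
    refine le_trans ?_ (hXT X hXXT P)
    unfold D3W
    refine Finset.sum_le_sum fun b _ ↦ Finset.sum_le_sum fun q _ ↦ ?_
    exact mul_le_mul_of_nonneg_left (hWD b) (by positivity)
  -- conclusion
  have h0 : 0 ≤ Ct * e * (X * g X) := by positivity
  have hcard : ∀ F : Finset k, (F.card : ℝ) ≤ Q := fun F ↦ by
    rw [hQ]
    exact_mod_cast Finset.card_le_univ _
  have h2 : ∑ t : k with t ≠ 0, ∑ s' : k with (s' ∈ Cs t ∧ s' ≠ 0),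
      (∑ j ∈ Ico s J, ZV S ψ V Lk W T E P j t s' +
        ∑ j ∈ Ico s J, ∑ i ∈ Ico T J with i ≠ j, ‖AV S ψ V Lk W T E P i j t s'‖ +
        (∑ i₁ ∈ Ico T J, ∑ i₂ ∈ Ico T i₁, ‖BV S ψ V Lk W T E P s i₁ i₂ t s'‖ +
          Fintype.card U * D3W S W E P s)) ≤ Q * (Q * (Ct * e * (X * g X))) := by
    have h3 : ∀ t ∈ (univ : Finset k).filter (fun t ↦ t ≠ 0),
        ∑ s' : k with (s' ∈ Cs t ∧ s' ≠ 0),
      (∑ j ∈ Ico s J, ZV S ψ V Lk W T E P j t s' +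
        ∑ j ∈ Ico s J, ∑ i ∈ Ico T J with i ≠ j, ‖AV S ψ V Lk W T E P i j t s'‖ +
        (∑ i₁ ∈ Ico T J, ∑ i₂ ∈ Ico T i₁, ‖BV S ψ V Lk W T E P s i₁ i₂ t s'‖ +
          Fintype.card U * D3W S W E P s)) ≤ Q * (Ct * e * (X * g X)) := by
      intro t ht
      rw [mem_filter] at ht
      refine (Finset.sum_le_card_nsmul _ _ (Ct * e * (X * g X)) fun s' hs' ↦ ?_).trans ?_
      · rw [mem_filter] at hs'
        have a1 := hZ t s'
        have a2 := hO t s' ht.2 hs'.2.2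
        have a3 := hO₂ t s' ht.2 hs'.2.1 hs'.2.2
        have a4 := mul_le_mul_of_nonneg_left hDD (Nat.cast_nonneg (α := ℝ) (Fintype.card U))
        rw [hCt]
        calc _ ≤ K₆ * e * (X * g X) + K₃ * e * (X * g X) +
              (K₇ * e * (X * g X) + Fintype.card U * (e * (X * g X))) :=
              add_le_add (add_le_add a1 a2) (add_le_add a3 a4)
          _ = _ := by ring
      · rw [nsmul_eq_mul]
        exact mul_le_mul_of_nonneg_right (hcard _) h0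
    refine (Finset.sum_le_card_nsmul _ _ _ h3).trans ?_
    rw [nsmul_eq_mul]
    exact mul_le_mul_of_nonneg_right (hcard _) (by positivity)
  refine (step7V S hFUL hSPL hTT ψ hyp.ψ_ne V Lk Cs M hM0 hyp₃.card W hW0 T E s J P hPJ).trans ?_
  have h4 : 0 ≤ Q * (Q * (Ct * e * (X * g X))) := by positivity
  have h5 : (1 / M : ℝ) * ∑ t : k with t ≠ 0, ∑ s' : k with (s' ∈ Cs t ∧ s' ≠ 0),
      (∑ j ∈ Ico s J, ZV S ψ V Lk W T E P j t s' +
        ∑ j ∈ Ico s J, ∑ i ∈ Ico T J with i ≠ j, ‖AV S ψ V Lk W T E P i j t s'‖ +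
        (∑ i₁ ∈ Ico T J, ∑ i₂ ∈ Ico T i₁, ‖BV S ψ V Lk W T E P s i₁ i₂ t s'‖ +
          Fintype.card U * D3W S W E P s)) ≤ Q * (Q * (Ct * e * (X * g X))) := by
    refine (mul_le_mul_of_nonneg_left h2 hM00).trans ?_
    calc (1 : ℝ) / M * (Q * (Q * (Ct * e * (X * g X)))) ≤ 1 * (Q * (Q * (Ct * e * (X * g X)))) :=
          mul_le_mul_of_nonneg_right hM01 h4
      _ = _ := one_mul _
  have h6 : (1 / M : ℝ) * (e * (X * g X)) ≤ e * (X * g X) := by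
    calc (1 / M : ℝ) * (e * (X * g X)) ≤ 1 * (e * (X * g X)) :=
          mul_le_mul_of_nonneg_right hM01 (by positivity)
      _ = _ := one_mul _
  calc _ ≤ (1 / M : ℝ) * (ρ₀ * (Q * F) + e * (X * g X)) + Q * (Q * (Ct * e * (X * g X))) :=
        add_le_add (mul_le_mul_of_nonneg_left hmain hM00) h5
    _ = ρ₀ * (Q / M * F) + ((1 / M : ℝ) * (e * (X * g X)) + Q * (Q * (Ct * e * (X * g X)))) := by
        ring
    _ ≤ ρ₀ * (Q / M * F) + (e * (X * g X) + Q * (Q * (Ct * e * (X * g X)))) :=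
        add_le_add le_rfl (add_le_add h6 le_rfl)
    _ = ρ₀ * (Q / M * F) + ((1 + Q * (Q * Ct)) * e) * (X * g X) := by ring
    _ = _ := by rw [hεe]

end Pool.Agent.Helper64.TH
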